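import Mathlib
import Pool.Agent.H530.PpF

/-!
# The almost primes around the primes of `F_q[X]`, `q` even: Poisson law and parities

Let `K` be a finite field with an even number `q` of elements and `p ∈ K[X]` a random monic
irreducible polynomial of degree `n`.  We look at the window of the `p + u`, `u ≠ 0`, `deg u < w`,
around `p`, and in it at the neighbours of `p`, the elements without irreducible factor of degree at
most `m = κ n`, which have at most `1 / κ` irreducible factors.  The Hardy-Littlewood conjecture
predicts that in windows of the order of the mean distance the number of the primes around a random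
prime has a Poisson distribution, as around a random integer.  We prove, with
`λ = q ^ w ∏ (1 - 1 / |P|)` bounded (product over the monic irreducible `P` of degree at most `m`):

* the number of the neighbours of `p` is asymptotically Poisson distributed with mean `λ`;
* for every `i`, over the `p` with exactly `i` neighbours, half of the neighbours have an odd number of
  irreducible factors, as primes, and half of them an even number (in particular for `i = 1`: the
  proportion of the `p` which have a single neighbour in the window, and this one with an odd number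
  of factors, is `λ e ^ (-λ) / 2 + o(1)`, and the same with an even number of factors);
* at least `(1 - e ^ (-λ)) / 2 - ε` of the `p` have a neighbour with an odd number of irreducible
  factors, and at least as many one with an even number.

Authors of the parts: the sieve among the irreducible polynomials and the Moebius function at one
neighbour (`Pool/Agent/H985/CH`, `Pool/Agent/H251/SP`): helper985, helper251 and the authors named in
`MP_8bf9c2_nt.PrimeAndParityEvenCharacteristic` and `MP_68a45e_nt`; the irreducible polynomials in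
residue classes (`Pool/Agent/H523/RH2`): helper523; the mean value of the singular series over the
pierced windows, the moments, the laws, the rarity of the neighbours which are not squarefree
(`Pool/Agent/H530/Po*`, `Pool/Agent/H530/Pp*`): helper530.
-/

namespace Pool.Agent.Results.MP_e87c7d_nt.NeighboursOfPrimes

open Polynomial

open Classical in
/-- The number of the irreducible factors of `F`, counted with multiplicity. -/
noncomputable def bigOmega {K : Type} [Field K] (F : K[X]) : ℕ :=
  Multiset.card (UniqueFactorizationMonoid.factors F)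

/-- `F ≠ 0` has no irreducible factor of degree at most `m`. -/
def Rough {K : Type} [Field K] (m : ℕ) (F : K[X]) : Prop :=
  F ≠ 0 ∧ ∀ P : K[X], Irreducible P → P ∣ F → m < P.natDegree

/-- The `u ≠ 0` with `deg u < w` such that `p + u` has no irreducible factor of degree at most
`m`. -/
def neighbours {K : Type} [Field K] (w m : ℕ) (p : K[X]) : Set K[X] :=
  {u | u ≠ 0 ∧ u.degree < (w : WithBot ℕ) ∧ Rough m (p + u)}

/-- The number of the `u` in `neighbours w m p` such that `p + u` has an odd number of irreducible
factors. -/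
noncomputable def oddCount {K : Type} [Field K] (w m : ℕ) (p : K[X]) : ℕ :=
  {u ∈ neighbours w m p | Odd (bigOmega (p + u))}.ncard

/-- The number of the `u` in `neighbours w m p` such that `p + u` has an even number of irreducible
factors. -/
noncomputable def evenCount {K : Type} [Field K] (w m : ℕ) (p : K[X]) : ℕ :=
  {u ∈ neighbours w m p | Even (bigOmega (p + u))}.ncard

/-- The monic irreducible polynomials of degree `n`. -/
def Primes (K : Type) [Field K] (n : ℕ) : Set K[X] :=
  {p | p.Monic ∧ p.natDegree = n ∧ Irreducible p}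

/-- The expected number of the neighbours: `q ^ w` times the product of the `1 - 1 / |P|`, `P` monic
irreducible of degree at most `m`. -/
noncomputable def mean (K : Type) [Field K] [Fintype K] (w m : ℕ) : ℝ :=
  (Fintype.card K : ℝ) ^ w *
    ∏ᶠ P ∈ {P : K[X] | P.Monic ∧ Irreducible P ∧ P.natDegree ≤ m},
      (1 - 1 / (Fintype.card K : ℝ) ^ P.natDegree)

/-- The Poisson distribution with mean `t`. -/
noncomputable def poisson (t : ℝ) (i : ℕ) : ℝ := Real.exp (-t) * t ^ i / (i.factorial : ℝ)

/-- **The almost primes around the primes of `F_q[X]`, `q` even.** -/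
theorem result (K : Type) [Field K] [Fintype K] (hK : Even (Fintype.card K)) (Lam ε : ℝ)
    (hε : 0 < ε) :
    (∀ i : ℕ, ∃ κ : ℝ, 0 < κ ∧ ∃ M N : ℕ, ∀ n w m : ℕ, N ≤ n → M ≤ w → w ≤ m →
      (m : ℝ) ≤ κ * n → mean K w m ≤ Lam →
        |({p ∈ Primes K n | (neighbours w m p).ncard = i}.ncard : ℝ) / (Primes K n).ncard -
          poisson (mean K w m) i| ≤ ε ∧
        |(∑ᶠ p ∈ {p ∈ Primes K n | (neighbours w m p).ncard = i}, (oddCount w m p : ℝ)) /
          (Primes K n).ncard - i / 2 * poisson (mean K w m) i| ≤ ε ∧
        |(∑ᶠ p ∈ {p ∈ Primes K n | (neighbours w m p).ncard = i}, (evenCount w m p : ℝ)) /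
          (Primes K n).ncard - i / 2 * poisson (mean K w m) i| ≤ ε) ∧
    (∃ κ : ℝ, 0 < κ ∧ ∃ M N : ℕ, ∀ n w m : ℕ, N ≤ n → M ≤ w → w ≤ m →
      (m : ℝ) ≤ κ * n → mean K w m ≤ Lam →
        (1 - Real.exp (-mean K w m)) / 2 - ε ≤
          ({p ∈ Primes K n | 1 ≤ oddCount w m p}.ncard : ℝ) / (Primes K n).ncard ∧
        (1 - Real.exp (-mean K w m)) / 2 - ε ≤
          ({p ∈ Primes K n | 1 ≤ evenCount w m p}.ncard : ℝ) / (Primes K n).ncard) := by
  classical
  have := Pool.Agent.H985.Cor.charTwo_of_even hK
  have hmean : ∀ w m : ℕ, mean K w m = Pool.Agent.H530.Pp.mn K w m := by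
    intro w m
    unfold mean Pool.Agent.H530.Pp.mn Pool.Agent.H530.Po.V1
    have hS : {P : K[X] | P.Monic ∧ Irreducible P ∧ P.natDegree ≤ m} =
        ↑(Pool.Agent.H694.Typ.PU K m) := by
      ext P
      rw [Finset.mem_coe, Pool.Agent.H694.Typ.mem_PU]
      rfl
    rw [hS, finprod_mem_coe_finset]
  have hrough : ∀ (m : ℕ) (F : K[X]), 1 ≤ m → (Rough m F ↔ Pool.Agent.H985.Par.Sft m F) := by
    intro m F hm
    constructor
    · rintro ⟨-, h⟩ P - hi hd
      exact h P hi hd
    · intro h
      refine ⟨?_, fun P hi hd => ?_⟩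
      · rintro rfl
        have h1 := h X monic_X irreducible_X (dvd_zero _)
        rw [natDegree_X] at h1
        omega
      · have hP0 : P ≠ 0 := hi.ne_zero
        have h1 := h (normalize P) (monic_normalize hP0)
          ((normalize_associated P).symm.irreducible hi) ((normalize_associated P).dvd.trans hd)
        have h2 : (normalize P).natDegree = P.natDegree :=
          natDegree_eq_of_degree_eq degree_normalize
        rwa [h2] at h1
  have hnb : ∀ (w m : ℕ) (p : K[X]), 1 ≤ m →
      neighbours w m p = ↑(Pool.Agent.H530.Pp.Nb w m p) := by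
    intro w m p hm
    unfold neighbours Pool.Agent.H530.Pp.Nb Pool.Agent.H530.Pp.Dz
    ext u
    rw [Finset.mem_coe, Finset.mem_filter, Finset.mem_erase, Pool.Agent.H530.Po.mem_Dg, and_assoc,
      ← hrough m _ hm]
    rfl
  have hnc : ∀ (w m : ℕ) (p : K[X]), 1 ≤ m →
      (neighbours w m p).ncard = Pool.Agent.H530.Pp.NN w m p := by
    intro w m p hm
    rw [hnb w m p hm, Set.ncard_coe_finset]
    rfl
  have hodd : ∀ (w m : ℕ) (p : K[X]), 1 ≤ m → oddCount w m p = Pool.Agent.H530.Pp.OO w m p := by
    intro w m p hm
    unfold oddCount Pool.Agent.H530.Pp.OO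
    rw [hnb w m p hm, ← Set.ncard_coe_finset, Finset.coe_filter]
    rfl
  have heven : ∀ (w m : ℕ) (p : K[X]), 1 ≤ m → evenCount w m p = Pool.Agent.H530.Pp.EE w m p := by
    intro w m p hm
    unfold evenCount Pool.Agent.H530.Pp.EE
    rw [hnb w m p hm, ← Set.ncard_coe_finset, Finset.coe_filter]
    rfl
  have hPr : ∀ n : ℕ, Primes K n = ↑(Pool.Agent.H694.Typ.Irn K n) := by
    intro n
    ext p
    rw [Finset.mem_coe, Pool.Agent.H694.Typ.mem_Irn]
    rfl
  have hpois : ∀ (t : ℝ) (i : ℕ), poisson t i = Pool.Agent.H530.Pp.ps t i := by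
    intro t i
    unfold poisson Pool.Agent.H530.Pp.ps
    rw [mul_div_assoc]
  have hlev : ∀ n w m i : ℕ, 1 ≤ m → {p ∈ Primes K n | (neighbours w m p).ncard = i} =
      ↑((Pool.Agent.H694.Typ.Irn K n).filter (fun p => Pool.Agent.H530.Pp.NN w m p = i)) := by
    intro n w m i hm
    rw [hPr, Finset.coe_filter]
    ext p
    rw [Set.mem_setOf_eq, Set.mem_setOf_eq, hnc w m p hm]
    rfl
  refine ⟨fun i => ?_, ?_⟩
  · obtain ⟨κ, hκ, M, N, h⟩ := Pool.Agent.H530.Pp.halves K (max Lam 0) ε (le_max_right _ _) hε i
    refine ⟨κ, hκ, max M 1, N, fun n w m hn hw hwm hm hlam => ?_⟩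
    have hm1 : 1 ≤ m := (le_max_right M 1).trans (hw.trans hwm)
    rw [hmean] at hlam ⊢
    obtain ⟨-, h1, h2, h3⟩ := h n w m hn ((le_max_left M 1).trans hw) hwm hm
      (hlam.trans (le_max_left _ _))
    rw [hlev n w m i hm1, hPr, Set.ncard_coe_finset, Set.ncard_coe_finset, hpois,
      finsum_mem_coe_finset, finsum_mem_coe_finset]
    refine ⟨h1, ?_, ?_⟩
    · rw [Finset.sum_congr rfl fun p _ => by rw [hodd w m p hm1]]
      exact h2
    · rw [Finset.sum_congr rfl fun p _ => by rw [heven w m p hm1]]
      exact h3
  · obtain ⟨κ, hκ, M, N, h⟩ := Pool.Agent.H530.Pp.neighbours K (max Lam 0) ε (le_max_right _ _) hε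
    refine ⟨κ, hκ, max M 1, N, fun n w m hn hw hwm hm hlam => ?_⟩
    have hm1 : 1 ≤ m := (le_max_right M 1).trans (hw.trans hwm)
    rw [hmean] at hlam ⊢
    obtain ⟨h1, h2⟩ := h n w m hn ((le_max_left M 1).trans hw) hwm hm
      (hlam.trans (le_max_left _ _))
    have e1 : {p ∈ Primes K n | 1 ≤ oddCount w m p} =
        ↑((Pool.Agent.H694.Typ.Irn K n).filter (fun p => 1 ≤ Pool.Agent.H530.Pp.OO w m p)) := by
      rw [hPr, Finset.coe_filter]
      ext p
      rw [Set.mem_setOf_eq, Set.mem_setOf_eq, hodd w m p hm1]
      rfl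
    have e2 : {p ∈ Primes K n | 1 ≤ evenCount w m p} =
        ↑((Pool.Agent.H694.Typ.Irn K n).filter (fun p => 1 ≤ Pool.Agent.H530.Pp.EE w m p)) := by
      rw [hPr, Finset.coe_filter]
      ext p
      rw [Set.mem_setOf_eq, Set.mem_setOf_eq, heven w m p hm1]
      rfl
    rw [e1, e2, hPr, Set.ncard_coe_finset, Set.ncard_coe_finset, Set.ncard_coe_finset]
    exact ⟨h1, h2⟩

end Pool.Agent.Results.MP_e87c7d_nt.NeighboursOfPrimes
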