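import Pool.Agent.H561.E3.K11
import Pool.Agent.H561.E3.K18

/-!
# A prime and `k` products of exactly two primes: the Hardy–Littlewood formula for almost all tuples of shifts, for all `x`

**Part 1.** For every `k ≥ 1` and `ε > 0` there is `η > 0` such that for all `A` the following holds for all large `H` and all
`D`. In every box `[b_1, b_1 + H) × … × [b_k, b_k + H)` contained in `[-D, D] ^ k`, all tuples `h` for which `0, h_1, …, h_k` are
distinct and do not occupy all the residue classes modulo a prime, except at most `H ^ k / (log H) ^ A`, have the following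
property: for ALL `x` with `D (log x) ^ (k + 2) ≤ x ≤ exp ((log H) ^ (1 + η))` the number of the primes `n ≤ x` for which every
`n + h_i` is a product of two primes is

`𝔖(0, h_1, …, h_k) * x * (log log x) ^ k / (log x) ^ (k + 1)`

up to a relative error of at most `ε`. So (for one `x`) shifts from any box of side `H ≥ exp ((log x) ^ (1 - η'))` suffice, for
instance `H = x ^ θ` with any `θ > 0`. All products of two primes are counted.

**Part 2.** If one prescribes the smaller prime factors, boxes of a side which is a power of the logarithm suffice, and the formula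
holds with the precise main term and a log-power saving, for all windows at once. For all `k` and `A` there are `a` and `G` such
that for all `E` and all large `X` the following holds. Let `S_1, …, S_k` be arbitrary sets of primes in
`((log X) ^ a, (log X) ^ E]` and let `[b_1, b_1 + H) × … × [b_k, b_k + H)` be ANY box of side `H ≥ (log X) ^ (E + G)`. All the
vectors `h` of distinct nonzero integers of this box, with at most `H ^ k / (log X) ^ A` exceptions, satisfy for ALL
`N₁ ≤ N₂ ≤ X` with `N₁ + b_i ≥ 0`, `N₂ + b_i + H ≤ X`: the number of the primes `n ∈ (N₁, N₂]` for which every `n + h_i` is the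
product of a prime from `S_i` and a prime is

`𝔖(0, h_1, …, h_k) ∑_{N₁ < n ≤ N₂} (1 / log n) ∏_i ∑_{s ∈ S_i, 2 s ≤ n + h_i} 1 / (s log ((n + h_i) / s))`

up to an error of at most `X / (log X) ^ A`. (If the `∑_{s ∈ S_i} 1 / s` are at least `(log X) ^ (-B)` and `N₂ - N₁` is at least
`X / (log X) ^ B`, the relative error is at most a negative power of `log X` for all admissible `h` with few exceptions, and the
main term is asymptotic to `𝔖(0, h) ∏_i (∑_{s ∈ S_i} 1 / s) (N₂ - N₁) / (log X) ^ (k + 1)`.)

Proof (`Pool.Agent.H561.E2`, `Pool.Agent.H561.E3`): the weights `∑_{p ∈ S} 1_{p ∣ m} Λ(m / p)` minus a sieve model have a small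
exponential sum in almost all short intervals: on minor arcs by the bilinear structure, on major arcs by Matomäki–Radziwiłł type
mean values of Dirichlet polynomials twisted by characters; then one replaces the weights of the `k` members one after the other,
with all the others as arbitrary weights, and computes the main term by the fundamental lemma and theorems on the distribution of
primes. In part 1 `S` is the set of the primes up to `exp ((log x) ^ (1 - η))`, and the products with two larger factors are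
estimated by an upper bound sieve, uniformly in the factor `≤ √x`. In part 2 the formula with von Mangoldt weights is applied to
short windows and to the subsets of the `S_i` in short intervals, followed by a partial summation in several variables.
-/

set_option autoImplicit false

namespace Pool.Agent.Results.MP_e87c7d_nt.PrimesAndSemiprimesAllX

open Finset Filter

/-- `m` is the product of an element of `S` and a prime -/
def ProductOfTwo (S : Finset ℕ) (m : ℤ) : Prop := ∃ p ∈ S, ∃ q : ℕ, q.Prime ∧ m = p * q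

/-- `m` is the product of two primes -/
def Semiprime (m : ℤ) : Prop := ∃ p q : ℕ, p.Prime ∧ q.Prime ∧ m = p * q

open Classical in
/-- the number of the primes `n ≤ x` such that every `n + h_i` is the product of two primes -/
noncomputable def semiprimeCount {k : ℕ} (h : Fin k → ℤ) (x : ℕ) : ℕ :=
  ((Icc 1 x).filter (fun n : ℕ => n.Prime ∧ ∀ i, Semiprime (n + h i))).card

open Classical in
/-- the number of the primes `n`, `N₁ < n ≤ N₂`, such that every `n + h_i` is the product of an element of `S_i` and a prime -/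
noncomputable def count {k : ℕ} (S : Fin k → Finset ℕ) (h : Fin k → ℤ) (N₁ N₂ : ℕ) : ℕ :=
  ((Ioc N₁ N₂).filter (fun n : ℕ => n.Prime ∧ ∀ i, ProductOfTwo (S i) (n + h i))).card

open Classical in
/-- the number of the residue classes modulo `p` occupied by `0, h_1, …, h_k` -/
noncomputable def ν {k : ℕ} (h : Fin k → ℤ) (p : ℕ) : ℕ :=
  ((insert (0 : ℤ) (univ.image h)).image (fun a : ℤ => (a : ZMod p))).card

/-- the singular series of `0, h_1, …, h_k`: the product of the `(1 - 1 / p) ^ (-(k + 1)) * (1 - ν_p / p)` over the primes -/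
noncomputable def singularSeries {k : ℕ} (h : Fin k → ℤ) : ℝ :=
  ∏' p : Nat.Primes, (1 - 1 / ((p : ℕ) : ℝ))⁻¹ ^ (k + 1) * (1 - (ν h p : ℝ) / ((p : ℕ) : ℝ))

/-- the expected number in part 1 -/
noncomputable def semiprimeExpected {k : ℕ} (h : Fin k → ℤ) (x : ℕ) : ℝ :=
  singularSeries h * x * Real.log (Real.log x) ^ k / Real.log x ^ (k + 1)

/-- the density of the products of an element of `S` and a prime at `m`: the sum of the `1 / (s log (m / s))` over the `s ∈ S`
with `2 s ≤ m` -/
noncomputable def density (S : Finset ℕ) (m : ℤ) : ℝ :=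
  ∑ s ∈ S, if 2 * (s : ℤ) ≤ m then 1 / ((s : ℝ) * Real.log ((m : ℝ) / s)) else 0

/-- the expected number in part 2 (the term with `n = 1` is `0`, since `x / 0 = 0`) -/
noncomputable def expected {k : ℕ} (S : Fin k → Finset ℕ) (h : Fin k → ℤ) (N₁ N₂ : ℕ) : ℝ :=
  singularSeries h * ∑ n ∈ Ioc N₁ N₂, (∏ i, density (S i) (n + h i)) / Real.log n

/-- the integers `0, h_1, …, h_k` are distinct and do not occupy all the residue classes modulo any prime -/
def Admissible {k : ℕ} (h : Fin k → ℤ) : Prop :=
  (∀ i, h i ≠ 0) ∧ Function.Injective h ∧ ∀ p : ℕ, p.Prime → ν h p < p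

open Classical in
/-- the admissible tuples of the box `[b_1, b_1 + H) × … × [b_k, b_k + H)` for which the formula of part 1 fails, up to a relative
error of at most `ε`, for some `x` with `D ≤ x`, `D (log x) ^ (k + 2) ≤ x` and `log x ≤ L` -/
noncomputable def semiprimeExceptional {k : ℕ} (ε L : ℝ) (D H : ℕ) (b : Fin k → ℤ) : Finset (Fin k → ℤ) :=
  (Fintype.piFinset (fun i => Ico (b i) (b i + H))).filter
    (fun h => Admissible h ∧ ¬ ∀ x : ℕ, D ≤ x → D * Real.log x ^ (k + 2) ≤ x → Real.log x ≤ L →
      |(semiprimeCount h x : ℝ) - semiprimeExpected h x| ≤ ε * semiprimeExpected h x)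

open Classical in
/-- the vectors `h` of distinct nonzero integers of the box `[b_1, b_1 + H) × … × [b_k, b_k + H)` for which the formula of part 2
fails, up to an error of at most `X / (log X) ^ A`, for some window `(N₁, N₂]` with `N₂ ≤ X`, `0 ≤ N₁ + b_i` and
`N₂ + b_i + H ≤ X` -/
noncomputable def exceptional {k : ℕ} (A : ℕ) (S : Fin k → Finset ℕ) (X H : ℕ) (b : Fin k → ℤ) : Finset (Fin k → ℤ) :=
  (Fintype.piFinset (fun i => Ico (b i) (b i + H))).filter
    (fun h => (∀ i, h i ≠ 0) ∧ Function.Injective h ∧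
      ¬ ∀ N₁ N₂ : ℕ, N₁ ≤ N₂ → N₂ ≤ X → (∀ i, 0 ≤ (N₁ : ℤ) + b i ∧ (N₂ : ℤ) + b i + H ≤ X) →
        |(count S h N₁ N₂ : ℝ) - expected S h N₁ N₂| ≤ X / Real.log X ^ A)

lemma prod_iff (S : Finset ℕ) (hS : ∀ p ∈ S, p.Prime) (m : ℤ) : ProductOfTwo S m ↔ Pool.Agent.H561.E2.PS S m.toNat := by
  constructor
  · rintro ⟨p, hp, q, hq, hm⟩
    refine ⟨p, hp, q, hq, ?_⟩
    rw [hm]
    exact_mod_cast Int.toNat_natCast (p * q)
  · rintro ⟨p, hp, q, hq, hm⟩
    refine ⟨p, hp, q, hq, ?_⟩
    have h1 : 0 < p * q := Nat.mul_pos (hS p hp).pos hq.pos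
    have h2 : ((m.toNat : ℕ) : ℤ) = m := Int.toNat_of_nonneg (by omega)
    rw [← h2, hm]
    push_cast
    rfl

lemma ser_eq {k : ℕ} (h : Fin k → ℤ) : singularSeries h = Pool.Agent.H561.E2.singT (fun _ => 1) h := by
  rw [← Pool.Agent.H561.E2.singD_eq]
  unfold singularSeries Pool.Agent.H561.E2.singD
  apply tprod_congr
  intro p
  have : ν h (p : ℕ) = Pool.Agent.H561.E2.omg (fun _ => 1) h p := Pool.Agent.H561.E2.occ_eq h p p.2
  rw [this]

lemma adm_of {k : ℕ} (h : Fin k → ℤ) (hh : Admissible h) :
    Pool.Agent.H561.E2.NDeg (fun _ => 1) h ∧ Pool.Agent.H561.E2.Adm (fun _ => 1) h := by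
  obtain ⟨h2, h3, h4⟩ := hh
  refine ⟨⟨h2, ?_⟩, ?_⟩
  · intro i j hij h6
    unfold Pool.Agent.H561.E2.DD at h6
    exact hij (h3 (by linarith))
  · rw [Pool.Agent.H561.E2.adm_iff]
    intro p hp
    rw [← Pool.Agent.H561.E2.occ_eq h p hp]
    exact h4 p hp

lemma cntS_eq {k : ℕ} (h : Fin k → ℤ) (x : ℕ) : semiprimeCount h x = Pool.Agent.H561.E3.CE (fun _ => 1) h 0 x := by
  classical
  unfold semiprimeCount Pool.Agent.H561.E3.CE
  congr 1
  ext n
  simp only [mem_filter, mem_Icc, mem_Ioc, Semiprime, Pool.Agent.H561.E2.LFo, one_mul]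
  constructor
  · rintro ⟨⟨h1, h2⟩, h3⟩
    exact ⟨⟨by omega, h2⟩, h3⟩
  · rintro ⟨⟨h1, h2⟩, h3⟩
    exact ⟨⟨by omega, h2⟩, h3⟩

lemma exp_eq {k : ℕ} (S : Fin k → Finset ℕ) (h : Fin k → ℤ) (N₁ N₂ : ℕ) :
    expected S h N₁ N₂ = Pool.Agent.H561.E2.singT (fun _ => 1) h * ∑ n ∈ Ioc N₁ N₂, Pool.Agent.H561.E3.ggk S h n := by
  unfold expected
  rw [ser_eq]
  congr 1
  apply sum_congr rfl
  intro n _
  unfold Pool.Agent.H561.E3.ggk density Pool.Agent.H561.E3.hh
  congr 1
  apply prod_congr rfl
  intro i _
  apply sum_congr rfl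
  intro s _
  push_cast
  rfl

/-- **A prime and `k` products of two primes: the formula for almost all tuples of shifts, for all `x` at once; and for products
with a small prime factor from prescribed sets in boxes of log-power size, with a log-power saving and for all windows.** -/
theorem result :
    (∀ k : ℕ, 0 < k → ∀ ε : ℝ, 0 < ε → ∃ η : ℝ, 0 < η ∧ ∀ A : ℕ, ∃ H₀ : ℕ, ∀ H : ℕ, H₀ ≤ H →
      ∀ (D : ℕ) (b : Fin k → ℤ), (∀ i, |b i| + H ≤ D) →
        ((semiprimeExceptional ε (Real.log H ^ (1 + η)) D H b).card : ℝ) ≤ (H : ℝ) ^ k / Real.log H ^ A) ∧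
    (∀ k A : ℕ, ∃ a G : ℕ, ∀ E : ℕ, ∀ᶠ X : ℕ in atTop, ∀ (S : Fin k → Finset ℕ) (H : ℕ) (b : Fin k → ℤ),
      (∀ i, ∀ s ∈ S i, s.Prime ∧ Real.log X ^ a < s ∧ (s : ℝ) ≤ Real.log X ^ E) → Real.log X ^ (E + G) ≤ H →
        ((exceptional A S X H b).card : ℝ) ≤ (H : ℝ) ^ k / Real.log X ^ A) := by
  classical
  constructor
  · intro k hk0 ε hε
    obtain ⟨η, hη0, _, hT⟩ := Pool.Agent.H561.E3.e2V k hk0 (fun _ => 1) (fun _ => le_rfl) ε hε
    refine ⟨η, hη0, fun A => ?_⟩
    obtain ⟨H₀, hT⟩ := hT A
    refine ⟨H₀, fun H hH D b hb => ?_⟩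
    refine le_trans ?_ (hT H hH D b hb)
    have hsub : semiprimeExceptional ε (Real.log H ^ (1 + η)) D H b ⊆
        (Fintype.piFinset (fun i : Fin k => Ico (b i) (b i + H))).filter (fun h =>
        Pool.Agent.H561.E2.NDeg (fun _ => 1) h ∧ Pool.Agent.H561.E2.Adm (fun _ => 1) h ∧
        ¬ ∀ x : ℕ, D ≤ x → D * (Real.log x) ^ (k + 2) ≤ x → Real.log x ≤ (Real.log H) ^ (1 + η) →
          |(Pool.Agent.H561.E3.CE (fun _ => 1) h 0 x : ℝ) -
            Pool.Agent.H561.E2.singT (fun _ => 1) h * x * Real.log (Real.log x) ^ k / (Real.log x) ^ (k + 1)| ≤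
          ε * (Pool.Agent.H561.E2.singT (fun _ => 1) h * x * Real.log (Real.log x) ^ k / (Real.log x) ^ (k + 1))) := by
      intro h hh
      unfold semiprimeExceptional at hh
      rw [mem_filter] at hh
      rw [mem_filter]
      obtain ⟨h1, h2, h3⟩ := hh
      refine ⟨h1, (adm_of h h2).1, (adm_of h h2).2, fun h4 => h3 fun x x1 x2 x3 => ?_⟩
      have h5 := h4 x x1 x2 x3
      rw [cntS_eq]
      unfold semiprimeExpected
      rw [ser_eq]
      exact h5
    exact_mod_cast card_le_card hsub
  · intro k A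
    obtain ⟨a, G, hT⟩ := Pool.Agent.H561.E3.sharpT k A
    refine ⟨a, G, fun E => ?_⟩
    obtain ⟨X₀, hT⟩ := hT E
    refine Filter.eventually_atTop.2 ⟨X₀, fun X hX S H b hS hH => ?_⟩
    refine le_trans ?_ (hT X hX S hS H hH b)
    have hsub : exceptional A S X H b ⊆ (Fintype.piFinset (fun i : Fin k => Ico (b i) (b i + H))).filter (fun h =>
        Pool.Agent.H561.E2.NDeg (fun _ => 1) h ∧
        ¬ ∀ N₁ N₂ : ℕ, N₂ ≤ X → (∀ i, 0 ≤ (N₁ : ℤ) + b i ∧ (N₂ : ℤ) + b i + H ≤ X) → N₁ ≤ N₂ →
          |(Pool.Agent.H561.E2.cntE (fun _ => 1) S N₁ N₂ h : ℝ) - Pool.Agent.H561.E2.singT (fun _ => 1) h *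
            ∑ n ∈ Ioc N₁ N₂, Pool.Agent.H561.E3.ggk S h n| ≤ X / (Real.log X) ^ A) := by
      intro h hh
      unfold exceptional at hh
      rw [mem_filter] at hh
      rw [mem_filter]
      obtain ⟨h1, h2, h3, h4⟩ := hh
      refine ⟨h1, ⟨h2, ?_⟩, fun h5 => h4 fun N₁ N₂ n1 n2 n3 => ?_⟩
      · intro i j hij h6
        unfold Pool.Agent.H561.E2.DD at h6
        exact hij (h3 (by linarith))
      · have h6 := h5 N₁ N₂ n2 n3 n1
        have e1 : count S h N₁ N₂ = Pool.Agent.H561.E2.cntE (fun _ => 1) S N₁ N₂ h := by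
          unfold count Pool.Agent.H561.E2.cntE
          congr 1
          apply filter_congr
          intro n _
          apply and_congr_right
          intro _
          apply forall_congr'
          intro i
          unfold Pool.Agent.H561.E2.LFo
          rw [one_mul]
          exact prod_iff (S i) (fun p hp => (hS i p hp).1) _
        rw [e1, exp_eq]
        exact h6
    exact_mod_cast card_le_card hsub

end Pool.Agent.Results.MP_e87c7d_nt.PrimesAndSemiprimesAllX
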