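import Mathlib
import Pool.Agent.H522.Trans5

/-! # Prime tuples among independent random shifts

Let `R 1, ..., R t` be ARBITRARY finite sets of at least `exp ((4 + δ) k + C)` integers, and choose an integer
`h i ∈ R i` uniformly and independently for every `i`. The random set `{h 1, ..., h t}` contains a prime tuple with
`k` elements (even a pattern of `≥ k` consecutive primes) with probability at least `1 - 2 exp (- t / (C k ^ 3))`, and
with probability at least `1 - 2 exp (- t / (C k ^ 2))` if the union of the sets misses a residue class modulo every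
small prime. An example is the smoothed form `h i = w i + r i` with arbitrary integers `w i` and random
`r i ∈ {1, ..., X}`, `X ≥ exp ((4 + δ) k + C)`: an arbitrary set of `t` integers is only known to contain a prime tuple
if it is admissible, and then only one with about `(log t) / 4` elements (Maynard, Tao).

Method. (1) Residue classes modulo the small primes are removed greedily from the disjoint union of the `R i`; this
leaves a proportion `≥ c / k` of the pairs `(i, x)`, `x ∈ R i`. (2) The pairs are divided into
`K = exp (4 k + O (1))` groups of equal size which have no integer `x` in common, and the Maynard–Tao measures of all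
transversals of the groups are averaged. This gives a probability measure on sets `S` of pairs, whose integers are the
shifts of isolated prime patterns, in which every pair is present with probability `≥ k / V`, `V` the number of
pairs, and in which a set `U` of pairs is present with probability `≤ (250 |U| k / V) ^ |U|`, by the bound for all
correlations in the Maynard–Tao measure (`Pool.Agent.H522.master`). (3) Second moment method in the product space,
and independence of disjoint blocks of coordinates. -/

set_option autoImplicit false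

open Filter

namespace Pool.Agent.Results.MP_e87c7d_nt.RandomShifts

/-- `B` is an isolated prime pattern: for every `R` and every `ε > 0` there are arbitrarily large `x` such that for
at least `x ^ (1 - ε)` of the integers `0 ≤ n ≤ x` the primes in `[n - R, n + R]` are exactly the numbers `n + b`,
`b ∈ B`. In particular all the `n + b`, `b ∈ B`, are (consecutive) primes for at least `x ^ (1 - ε)` of the `n ≤ x`. -/
def Isolated (B : Finset ℤ) : Prop := ∀ (R : ℕ) (ε : ℝ), 0 < ε → ∃ᶠ x : ℝ in atTop,
  x ^ (1 - ε) ≤ (Set.ncard {n : ℕ | (n : ℝ) ≤ x ∧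
    ∀ y : ℤ, |y| ≤ R → ((∃ p : ℕ, p.Prime ∧ (p : ℤ) = n + y) ↔ y ∈ B)} : ℝ)

/-- the set of the values of `h` contains an isolated prime pattern with at least `k` elements -/
def Contains {t : ℕ} (k : ℕ) (h : Fin t → ℤ) : Prop :=
  ∃ B : Finset ℤ, k ≤ B.card ∧ (∀ b ∈ B, ∃ i, h i = b) ∧ Isolated B

theorem result (δ : ℝ) (hδ : 0 < δ) : ∃ C : ℝ, 0 < C ∧ ∀ (k t : ℕ) (R : Fin t → Finset ℤ), 1 ≤ k →
    (∀ i, Real.exp ((4 + δ) * k + C) ≤ (R i).card) →
    -- arbitrary sets
    (Set.ncard {h : Fin t → ℤ | (∀ i, h i ∈ R i) ∧ ¬ Contains k h} : ℝ) ≤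
      2 * Real.exp (-(t / (C * (k : ℝ) ^ 3))) * ∏ i, ((R i).card : ℝ) ∧
    -- sets whose union misses a residue class modulo every small prime
    ((∀ p : ℕ, p.Prime → (p : ℝ) ≤ Real.exp ((4 + δ) * k + C) →
        ∃ r : ℤ, ∀ i, ∀ x ∈ R i, ¬ x ≡ r [ZMOD p]) →
      (Set.ncard {h : Fin t → ℤ | (∀ i, h i ∈ R i) ∧ ¬ Contains k h} : ℝ) ≤
        2 * Real.exp (-(t / (C * (k : ℝ) ^ 2))) * ∏ i, ((R i).card : ℝ)) := by
  classical
  obtain ⟨C, hC, hmain⟩ := Pool.Agent.H522.trans_main δ hδ
  refine ⟨C, hC, ?_⟩
  intro k t R hk hR
  obtain ⟨h1, h2⟩ := hmain k t R hk hR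
  have h3 : {h : Fin t → ℤ | (∀ i, h i ∈ R i) ∧ ¬ Contains k h} =
      (((Fintype.piFinset R).filter (fun g => ¬ Pool.Agent.H522.HasPat k Finset.univ g) :
        Finset (Fin t → ℤ)) : Set (Fin t → ℤ)) := by
    ext h
    rw [Finset.coe_filter]
    simp only [Fintype.mem_piFinset]
    have h4 : Contains k h ↔ Pool.Agent.H522.HasPat k Finset.univ h := by
      constructor
      · rintro ⟨B, h5, h6, h7⟩
        exact ⟨B, h5, h7, fun b hb => by
          obtain ⟨i, hi⟩ := h6 b hb
          exact ⟨i, Finset.mem_univ _, hi⟩⟩
      · rintro ⟨B, h5, h7, h6⟩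
        exact ⟨B, h5, fun b hb => by
          obtain ⟨i, _, hi⟩ := h6 b hb
          exact ⟨i, hi⟩, h7⟩
    exact and_congr Iff.rfl (not_congr h4)
  rw [h3, Set.ncard_coe_finset]
  refine ⟨h1, fun hadm => h2 ?_⟩
  intro p hp hpl
  obtain ⟨r, hr⟩ := hadm p hp hpl
  refine ⟨-r, fun i x hx hd => hr i x hx ?_⟩
  rw [Int.modEq_iff_dvd]
  have : r - x = -(-r + x) := by ring
  rw [this]
  exact (dvd_neg).2 hd

end Pool.Agent.Results.MP_e87c7d_nt.RandomShifts
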