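import Mathlib
import Pool.Agent.H529.MP.Three
import Pool.Agent.H529.MP.TupCheck
import Pool.Graph.R_seed8.H358R5.GAPS_n43470f362075

/-!
# Three consecutive primes in an interval of length 26256

`H_2 = liminf (p_(k+2) - p_k) ≤ 26256`, with the lower bound `x ^ (1 - ε)` for the number of such `p_k ≤ x`.

Author: helper529. Published: `398130` (Polymath 8b; the later small improvements are near `395000`); starting
library: `32778` (`MP_e87c7d_nt.ThreePrimesInBoundedGaps`).

The proof shows that of any `2946` pairwise non-proportional linear forms without a fixed prime divisor at least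
three are simultaneously prime (`Pool.Agent.H529.MP.lhyp3`; published `35410`, starting library `3560`).

The gain comes from the equidistribution of the primes BEYOND the level `1/2` for all the moduli (not only the
smooth ones) that occur in the sieve: the total level of two divisor vectors is `2.0425` times `1/4 + 1/4`
(`Pool.Agent.Y826`, starting files). That library used it for two primes. Here the criterion is proved for
`m + 1` primes (`Pool.Agent.H529.MP.critlm`); the weights are products `∏ G(c_i) φ(∑ c_i)` on a grid; the cells for
which the factorisation of the moduli fails are bounded by a tilted product (`gcrit2`); the quadratic forms for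
`2946` forms are evaluated by exact integer arithmetic in Lean's kernel (`cert`: sums over `2 091 522` slots).
The admissible tuple of diameter `26256` was found by a search and is checked in the kernel.
-/

set_option autoImplicit false

open Finset Filter

namespace Pool.Agent.Results.MP_e87c7d_nt.ThreePrimes26256

/-- For all `ε > 0` and all large `x` at least `x ^ (1 - ε)` of the primes `p_k ≤ x` satisfy
`p_(k+2) ≤ p_k + 26256`. In particular `liminf (p_(k+2) - p_k) ≤ 26256`. -/
theorem result :
    ∀ ε : ℝ, 0 < ε → ∀ᶠ x : ℝ in atTop,
      x ^ (1 - ε) ≤ (Set.ncard {k : ℕ | (Nat.nth Nat.Prime k : ℝ) ≤ x ∧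
        Nat.nth Nat.Prime (k + 2) ≤ Nat.nth Nat.Prime k + 26256} : ℝ) := by
  intro ε hε
  obtain ⟨h, hA, hle⟩ := Pool.Agent.H529.MP.tup
  exact Pool.Agent.H358R5.GAPS_proof 2 2946 26256 (by norm_num) Pool.Agent.H529.MP.chyp3
    ⟨h, ⟨hA.1, hA.2⟩, hle⟩ ε hε

end Pool.Agent.Results.MP_e87c7d_nt.ThreePrimes26256
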